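import Pool.Agent.H50.RT2.Lower

/-!
# MP_e0e768_co: the lower Ramsey–Turán density of `K₅` for `f_c(n) = c·Q(3,n/2)`
-/

namespace Pool.Agent.Results.MP_e0e768_co.LowerDensityLinear

open Pool.Agent.H54.RT

theorem result : ∃ κ : ℝ, 0 < κ ∧ ∀ c : ℝ, 0 < c → c < 1 →
    κ * c ^ 2 ≤ lowerDensity 5 (fc c) ∧ lowerDensity 5 (fc c) ≤ c / 4 := by
  obtain ⟨κ, hκ, h⟩ := lower_quad
  exact ⟨κ, hκ, fun c hc0 hc1 => ⟨h c hc0 hc1, Pool.Agent.H50.RT2.lower_le2 c hc0 hc1⟩⟩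

end Pool.Agent.Results.MP_e0e768_co.LowerDensityLinear
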