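import Pool.Agent.H50.RT2.Lower

/-!
# MP_e0e768_co: two-sided bounds for `RT(n, K₅, c·Q(3,n/2))` in terms of `Q(3,·)`
-/

namespace Pool.Agent.Results.MP_e0e768_co.TwoSided

open Filter Pool.Agent.H54.RT

theorem result : ∀ c : ℝ, 0 < c → c ≤ 1 → ∀ ε : ℝ, 0 < ε → ∀ᶠ n : ℕ in atTop, ∀ k : ℕ,
    ((Q 3 k : ℝ) < c * Q 3 (n / 2) →
      (k : ℝ) ^ 2 - ε * (n : ℝ) ^ 2 ≤ RTnum n 5 (fc c n)) ∧
    ((Q 3 k : ℝ) < c / 2 * Q 3 (n / 2) →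
      (k : ℝ) * (n / 2 - k) - ε * (n : ℝ) ^ 2 ≤ RTnum n 5 (fc c n)) ∧
    (c * Q 3 (n / 2) ≤ Q 3 (k + 1) →
      (RTnum n 5 (fc c n) : ℝ) ≤ Real.sqrt (k * (n : ℝ) ^ 3 / 8) + ε * (n : ℝ) ^ 2) := by
  intro c hc0 hc ε hε
  filter_upwards [Pool.Agent.H50.RT2.lower_one c hc0 hc ε hε,
    Pool.Agent.H50.RT2.lower_two c hc ε hε,
    Pool.Agent.H50.RT2.RT_upper2 c ε hc hε] with n h1 h2 h3 k
  exact ⟨h1 k, h2 k, h3 k⟩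

end Pool.Agent.Results.MP_e0e768_co.TwoSided
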