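import Pool.Agent.H50.RT2.Lower

/-!
# MP_e0e768_co: the upper Ramsey–Turán density of `K₅` for `f_c(n) = c·Q(3,n/2)`
-/

namespace Pool.Agent.Results.MP_e0e768_co.UpperDensityLinear

open Pool.Agent.H54.RT

theorem result : ∃ κ K : ℝ, 0 < κ ∧ 0 < K ∧ ∀ c : ℝ, 0 < c → c < 1 →
    c ^ 4 / 4 ≤ upperDensity 5 (fc c) ∧
    c ^ 2 * (4 - c ^ 2) / 64 ≤ upperDensity 5 (fc c) ∧
    upperDensity 5 (fc c) ≤ 1 / 4 - κ * (1 - c) ^ 2 ∧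
    upperDensity 5 (fc c) ≤ K * c ∧
    ∀ m : ℕ, 1 ≤ m → c ≤ 1 / m → upperDensity 5 (fc c) ≤ 1 / (4 * Real.sqrt m) := by
  obtain ⟨κ, hκ, h⟩ := upper_quad
  obtain ⟨K, hK, h'⟩ := Pool.Agent.H50.RT2.upper_lin
  exact ⟨κ, K, hκ, hK, fun c hc0 hc1 => ⟨le_upper c hc0 hc1,
    Pool.Agent.H50.RT2.le_upper2 c hc0 hc1, h c hc0 hc1, h' c hc0 hc1,
    fun m hm hc => Pool.Agent.H50.RT2.upper_inv2 c m hm hc⟩⟩

end Pool.Agent.Results.MP_e0e768_co.UpperDensityLinear
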